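import Pool.Agent.Helper15.WA.LocDefs
import Pool.Agent.Helper10.GWA.LB

/-!
# Module SIGC : the involution near the nodes, the seven regular cases
-/

namespace GWA

/-- exchanging the two points -/
theorem SRel.swap {K : Type*} [Field K] {d d' : Kˣ} {P Q : E (d : K)} {P' Q' : E (d' : K)}
    [NeZero (2 : K)] (h : SRel ⟨d, P, Q⟩ ⟨d', P', Q'⟩) : SRel ⟨d, Q, P⟩ ⟨d', Q', P'⟩ := by
  obtain ⟨u, hu, h1, h2⟩ := h
  have e1 : u.z ^ 2 = ff u.y * ff u.x := by rw [u.eqn]; ring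
  let u' : Pt K := ⟨(u.y, u.x, u.z), e1, u.hz⟩
  have hx : u'.x = u.y := rfl
  have hy : u'.y = u.x := rfl
  have hz : u'.z = u.z := rfl
  have hu' : IOK u' := by
    refine ⟨?_, ?_, ?_⟩
    · rw [hx, hy, sD_comm]; exact hu.1
    · rw [hx, hy, sS_comm]; exact hu.2.1
    · rw [hx, hy, sQ_comm]; exact hu.2.2
  refine ⟨u', hu', ?_, ?_⟩
  · obtain ⟨a1, a2, a3, a4, a5, a6⟩ := h1
    refine ⟨a1, a3, a2, a5, a4, ?_⟩
    rw [hz]
    rw [a6]
    exact mul_comm _ _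
  · obtain ⟨a1, a2, a3, a4, a5, a6⟩ := h2
    rw [iota_x] at a4
    rw [iota_y] at a5
    rw [iota_z] at a6
    refine ⟨a1, a3, a2, ?_, ?_, ?_⟩
    · rw [iota_x, hx, hy, ← sy_eq]; exact a5
    · rw [iota_y, hx, hy, sy_eq]; exact a4
    · rw [iota_z, hx, hy, hz, kap_comm, a6]
      exact mul_comm _ _

namespace SIGC

section img

variable {K : Type*} [Field K] [NeZero (2 : K)]

/-- existence of the image -/
lemma exists_img {d : Kˣ} {P Q : E (d : K)} (hfP : ff (nx P) ≠ 0) (hfQ : ff (nx Q) ≠ 0)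
    (hD : sD (nx P) (nx Q) ≠ 0) (hS : sS (nx P) (nx Q) ≠ 0) (hQ : sQ (nx P) (nx Q) ≠ 0) :
    ∃ (d' : Kˣ) (P' Q' : E (d' : K)), P' ≠ 0 ∧ Q' ≠ 0 ∧ nx P' = sx (nx P) (nx Q) ∧
      nx Q' = sy (nx P) (nx Q) ∧ SRel ⟨d', P', Q'⟩ ⟨d, P, Q⟩ := by
  have hd := d.ne_zero
  have hyP := (yc_ne_iff hd P).2 hfP
  have hyQ := (yc_ne_iff hd Q).2 hfQ
  have hI : IOK (mkPt hd P Q hyP hyQ) := ⟨hD, hS, hQ⟩
  obtain ⟨d', P', Q', hrep⟩ := exists_rep (iota (mkPt hd P Q hyP hyQ) hI)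
  have hr : SRel ⟨d, P, Q⟩ ⟨d', P', Q'⟩ := ⟨_, hI, rep_mkPt hd hyP hyQ, hrep⟩
  obtain ⟨-, -, h3, h4, -, -, -, -, -, -, -, h12, h13⟩ := hr.elim
  exact ⟨d', P', Q', h3, h4, h12, h13, hr.symm⟩

end img

section cg

variable {K : Type} [NormedField K] [Algebra GaussianInt K] {π : GaussianInt}

/-- congruence of integral elements -/
def cg (x y : K) : Prop := ‖x‖ ≤ 1 ∧ ‖y‖ ≤ 1 ∧ ‖x - y‖ < 1

variable (h : LocHyp K π)

include h

lemma cg_add {x y x' y' : K} (h1 : cg x x') (h2 : cg y y') : cg (x + y) (x' + y') := by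
  refine ⟨(h.ultra _ _).trans (max_le h1.1 h2.1), (h.ultra _ _).trans (max_le h1.2.1 h2.2.1), ?_⟩
  have : x + y - (x' + y') = (x - x') + (y - y') := by ring
  rw [this]
  exact (h.ultra _ _).trans_lt (max_lt h1.2.2 h2.2.2)

omit [Algebra GaussianInt K] h in
lemma cg_neg {x x' : K} (h1 : cg x x') : cg (-x) (-x') := by
  refine ⟨by rw [norm_neg]; exact h1.1, by rw [norm_neg]; exact h1.2.1, ?_⟩
  have : -x - -x' = -(x - x') := by ring
  rw [this, norm_neg]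
  exact h1.2.2

lemma cg_sub {x y x' y' : K} (h1 : cg x x') (h2 : cg y y') : cg (x - y) (x' - y') := by
  rw [sub_eq_add_neg, sub_eq_add_neg]
  exact cg_add h h1 (cg_neg h2)

lemma cg_mul {x y x' y' : K} (h1 : cg x x') (h2 : cg y y') : cg (x * y) (x' * y') := by
  refine ⟨?_, ?_, ?_⟩
  · rw [norm_mul]; exact mul_le_one₀ h1.1 (norm_nonneg _) h2.1
  · rw [norm_mul]; exact mul_le_one₀ h1.2.1 (norm_nonneg _) h2.2.1
  · have : x * y - x' * y' = (x - x') * y + x' * (y - y') := by ring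
    rw [this]
    refine (h.ultra _ _).trans_lt (max_lt ?_ ?_)
    · rw [norm_mul]
      exact mul_lt_one_of_nonneg_of_lt_one_left (norm_nonneg _) h1.2.2 h2.1
    · rw [norm_mul]
      exact mul_lt_one_of_nonneg_of_lt_one_right h1.2.1 (norm_nonneg _) h2.2.2

omit [Algebra GaussianInt K] h in
lemma cg_refl {x : K} (hx : ‖x‖ ≤ 1) : cg x x := ⟨hx, hx, by rw [sub_self, norm_zero]; norm_num⟩

lemma cg_nat (n : ℕ) : cg (n : K) (n : K) := cg_refl (h.norm_natCast_le n)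

lemma cg_ofNat (n : ℕ) [n.AtLeastTwo] : cg (OfNat.ofNat n : K) (OfNat.ofNat n : K) :=
  cg_refl (h.norm_ofNat_le n)

omit [Algebra GaussianInt K] h in
lemma cg_one : cg (1 : K) (1 : K) := cg_refl (by rw [norm_one])

lemma cg_norm {x y : K} (h1 : cg x y) (hy : ‖y‖ = 1) : ‖x‖ = 1 := by
  have : x = y + (x - y) := by ring
  rw [this, h.norm_sum_eq (by rw [hy]; exact h1.2.2), hy]

lemma cg_inv {x y : K} (h1 : cg x y) (hy : ‖y‖ = 1) : cg x⁻¹ y⁻¹ := by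
  have hx := cg_norm h h1 hy
  have hx0 : x ≠ 0 := by rw [← norm_pos_iff, hx]; norm_num
  have hy0 : y ≠ 0 := by rw [← norm_pos_iff, hy]; norm_num
  refine ⟨by rw [norm_inv, hx, inv_one], by rw [norm_inv, hy, inv_one], ?_⟩
  have : x⁻¹ - y⁻¹ = -(x - y) * (x⁻¹ * y⁻¹) := by field_simp; ring
  rw [this, norm_mul, norm_mul, norm_inv, norm_inv, hx, hy, norm_neg]
  simpa using h1.2.2

lemma cg_div {x y x' y' : K} (h1 : cg x x') (h2 : cg y y') (hy : ‖y'‖ = 1) :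
    cg (x / y) (x' / y') := by
  rw [div_eq_mul_inv, div_eq_mul_inv]
  exact cg_mul h h1 (cg_inv h h2 hy)

end cg

section near

variable {K : Type} [NormedField K] [Algebra GaussianInt K] [NeZero (2 : K)] [DecidableEq K]
  {π : GaussianInt} (h : LocHyp K π)

include h

/-- points near `T` -/
lemma near_T (hodd : ¬ π ∣ 2) {d : K} (hd : d ≠ 0) {P : E d} (hP : P ≠ 0)
    (hx : ‖nx P - 1‖ < 1) : P - T hd ∈ nb π d 0 := by
  have hT : T hd ≠ 0 := T_ne hd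
  have hneg : -T hd = T hd := by
    rw [neg_eq_iff_add_eq_zero]; exact T_add_T hd
  rw [h.mem_nb_zero_iff hd, sub_eq_add_neg, hneg]
  by_cases h1 : nx P = 1
  · left
    rw [← nx_T hd] at h1
    rcases (nx_eq_iff hd hP hT).1 h1 with h2 | h2
    · rw [h2]; exact T_add_T hd
    · rw [h2]; exact neg_add_cancel _
  · right
    rw [(nx_add_T hd hP h1).2]
    have h2 : ‖nx P + 1‖ = 1 := by
      have : nx P + 1 = 2 + (nx P - 1) := by ring
      rw [this, h.norm_sum_eq (by rwa [h.norm_two hodd]), h.norm_two hodd]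
    rw [norm_div, h2]
    exact one_lt_one_div (norm_pos_iff.2 (sub_ne_zero.2 h1)) hx

/-- points near `T₀` -/
lemma near_T₀ {d : K} (hd : d ≠ 0) {P : E d} (hP : P ≠ 0)
    (hx : ‖nx P‖ < 1) : P - T₀ hd ∈ nb π d 0 := by
  have hT : T₀ hd ≠ 0 := T₀_ne hd
  have hneg : -T₀ hd = T₀ hd := by
    rw [neg_eq_iff_add_eq_zero]; exact T₀_add_T₀ hd
  rw [h.mem_nb_zero_iff hd, sub_eq_add_neg, hneg]
  by_cases h1 : nx P = 0
  · left
    rw [← nx_T₀ hd] at h1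
    rcases (nx_eq_iff hd hP hT).1 h1 with h2 | h2
    · rw [h2]; exact T₀_add_T₀ hd
    · rw [h2]; exact neg_add_cancel _
  · right
    rw [(nx_add_T₀ hd hP h1).2, norm_div, norm_neg, norm_one]
    exact one_lt_one_div (norm_pos_iff.2 h1) hx

omit h in
lemma gi_gi (d : Kˣ) (P : E (d : K)) : gi • gi • P = -P := by
  rw [gi_smul, gi_smul, im_im]

/-- points near `i T` -/
lemma near_giT (hodd : ¬ π ∣ 2) (d : Kˣ) {P : E (d : K)} (hP : P ≠ 0)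
    (hx : ‖nx P + 1‖ < 1) : P - gi • T d.ne_zero ∈ nb π (d : K) 0 := by
  have h1 : ‖nx (gi • P) - 1‖ < 1 := by
    rw [nx_gi_smul]
    have : -nx P - 1 = -(nx P + 1) := by ring
    rw [this, norm_neg]
    exact hx
  have h2 := near_T h hodd d.ne_zero (gi_smul_ne d hP) h1
  have h3 := h.nb_smul d 0 gi h2
  rw [smul_sub, gi_gi] at h3
  have h4 := neg_mem_nbh h3
  have h5 : -(-P - gi • T d.ne_zero) = P + gi • T d.ne_zero := by abel
  rw [h5] at h4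
  have hneg : -(gi • T d.ne_zero) = gi • T d.ne_zero := by
    rw [← smul_neg]
    congr 1
    rw [neg_eq_iff_add_eq_zero]; exact T_add_T d.ne_zero
  rw [sub_eq_add_neg, hneg]
  exact h4

/-- points near zero -/
lemma pt_inf (d : Kˣ) {η : E (d : K)} (hη : η ∈ nb π (d : K) 0) (hη0 : η ≠ 0) :
    1 < ‖nx η‖ ∧ nx η ≠ 0 ∧ nx η - 1 ≠ 0 ∧ nx η + 1 ≠ 0 ∧ ff (nx η) ≠ 0 := by
  have h1 : 1 < ‖nx η‖ := ((h.mem_nb_zero_iff d.ne_zero).1 hη).resolve_left hη0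
  have h2 : nx η ≠ 0 := by
    intro h2; rw [h2, norm_zero] at h1; linarith
  have h3 : nx η - 1 ≠ 0 := by
    intro h3
    rw [sub_eq_zero.1 h3, norm_one] at h1
    exact lt_irrefl _ h1
  have h4 : nx η + 1 ≠ 0 := by
    intro h4
    rw [eq_neg_of_add_eq_zero_left h4, norm_neg, norm_one] at h1
    exact lt_irrefl _ h1
  refine ⟨h1, h2, h3, h4, ?_⟩
  have : ff (nx η) = nx η * (nx η - 1) * (nx η + 1) := by unfold ff; ring
  rw [this]
  exact mul_ne_zero (mul_ne_zero h2 h3) h4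

/-- the inverse of the x-coordinate of a point near zero -/
lemma inv_lt {x : K} (hx : 1 < ‖x‖) : ‖x⁻¹‖ < 1 := by
  rw [norm_inv]
  exact inv_lt_one_of_one_lt₀ hx

lemma cg_w {x : K} (hx : 1 < ‖x‖) : cg x⁻¹ 0 := by
  have := inv_lt h hx
  exact ⟨this.le, by rw [norm_zero]; norm_num, by rwa [sub_zero]⟩

lemma pt_T (d : Kˣ) {η : E (d : K)} (hη : η ∈ nb π (d : K) 0) (hη0 : η ≠ 0) :
    T d.ne_zero + η ≠ 0 ∧ cg (nx (T d.ne_zero + η)) 1 ∧ ff (nx (T d.ne_zero + η)) ≠ 0 := by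
  obtain ⟨h1, h2, h3, h4, h5⟩ := pt_inf h d hη hη0
  obtain ⟨h6, h7⟩ := nx_add_T d.ne_zero hη0 (sub_ne_zero.1 h3)
  rw [add_comm η] at h6 h7
  have h2' : (2 : K) ≠ 0 := two_ne_zero
  refine ⟨h6, ?_, ?_⟩
  · rw [h7]
    have hw := cg_w h h1
    have e : (nx η + 1) / (nx η - 1) = (1 + (nx η)⁻¹) / (1 - (nx η)⁻¹) := by
      have : 1 - (nx η)⁻¹ ≠ 0 := by
        intro h8
        apply h3
        have h9 : (nx η)⁻¹ = 1 := (sub_eq_zero.1 h8).symm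
        rw [inv_eq_one] at h9
        rw [h9, sub_self]
      field_simp
    rw [e]
    have h8 := cg_div h (cg_add h cg_one hw) (cg_sub h cg_one hw) (by rw [sub_zero, norm_one])
    simpa using h8
  · rw [h7]
    have e : ff ((nx η + 1) / (nx η - 1)) = 2 * 2 * nx η * (nx η + 1) / (nx η - 1) ^ 3 := by
      unfold ff
      field_simp
      ring
    rw [e]
    exact div_ne_zero (mul_ne_zero (mul_ne_zero (mul_ne_zero h2' h2') h2) h4) (pow_ne_zero 3 h3)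

lemma pt_T₀ (d : Kˣ) {η : E (d : K)} (hη : η ∈ nb π (d : K) 0) (hη0 : η ≠ 0) :
    T₀ d.ne_zero + η ≠ 0 ∧ cg (nx (T₀ d.ne_zero + η)) 0 ∧ ff (nx (T₀ d.ne_zero + η)) ≠ 0 := by
  obtain ⟨h1, h2, h3, h4, h5⟩ := pt_inf h d hη hη0
  obtain ⟨h6, h7⟩ := nx_add_T₀ d.ne_zero hη0 h2
  rw [add_comm η] at h6 h7
  refine ⟨h6, ?_, ?_⟩
  · rw [h7, neg_div, one_div]
    have hw := cg_neg (cg_w h h1)
    rwa [neg_zero] at hw
  · rw [h7]
    have e : ff (-1 / nx η) = (nx η - 1) * (nx η + 1) / (nx η) ^ 3 := by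
      unfold ff
      field_simp
      ring
    rw [e]
    exact div_ne_zero (mul_ne_zero h3 h4) (pow_ne_zero 3 h2)

lemma pt_giT (d : Kˣ) {η : E (d : K)} (hη : η ∈ nb π (d : K) 0) (hη0 : η ≠ 0) :
    gi • T d.ne_zero + η ≠ 0 ∧ cg (nx (gi • T d.ne_zero + η)) (-1) ∧
      ff (nx (gi • T d.ne_zero + η)) ≠ 0 := by
  have h1 := h.nb_smul d 0 gi hη
  obtain ⟨h2, h3, h4⟩ := pt_T h d h1 (gi_smul_ne d hη0)
  have hneg : gi • T d.ne_zero = -(gi • T d.ne_zero) := by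
    rw [← smul_neg]
    congr 1
    symm
    rw [neg_eq_iff_add_eq_zero]; exact T_add_T d.ne_zero
  have e : gi • T d.ne_zero + η = -(gi • (T d.ne_zero + gi • η)) := by
    rw [smul_add, gi_gi, neg_add, neg_neg, ← hneg]
  have e2 : nx (gi • T d.ne_zero + η) = - nx (T d.ne_zero + gi • η) := by
    rw [e, nx_neg, nx_gi_smul]
  refine ⟨?_, ?_, ?_⟩
  · rw [e]; exact neg_ne (gi_smul_ne d h2)
  · rw [e2]; exact cg_neg h3
  · rw [e2]
    have : ff (-nx (T d.ne_zero + gi • η)) = - ff (nx (T d.ne_zero + gi • η)) := by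
      unfold ff; ring
    rw [this]
    exact neg_ne_zero.2 h4

omit h in
/-- the points of `E d'` near the nodes -/
lemma mem_NNε {d' : Kˣ} {P' Q' : E (d' : K)} {κ μ : GaussianInt}
    (h1 : P' - κ • T d'.ne_zero ∈ nb π (d' : K) 0) (h2 : Q' - μ • T d'.ne_zero ∈ nb π (d' : K) 0) :
    (⟨d', P', Q'⟩ : (FLD K π).Sys) ∈ (FLD K π).NNε κ μ := by
  refine ⟨_, h1, _, h2, ?_⟩
  have e1 : P' = κ • T d'.ne_zero + (P' - κ • T d'.ne_zero) := by abel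
  have e2 : Q' = μ • T d'.ne_zero + (Q' - μ • T d'.ne_zero) := by abel
  change (⟨d', P', Q'⟩ : Σ d : Kˣ, E (d : K) × E (d : K)) =
    ⟨d', κ • T d'.ne_zero + (P' - κ • T d'.ne_zero), μ • T d'.ne_zero + (Q' - μ • T d'.ne_zero)⟩
  rw [← e1, ← e2]

lemma near_0 (d : Kˣ) {P : E (d : K)} (hx : 1 < ‖nx P‖) :
    P - (0 : GaussianInt) • T d.ne_zero ∈ nb π (d : K) 0 := by
  rw [zero_smul, sub_zero, h.mem_nb_zero_iff d.ne_zero]
  exact Or.inr hx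

lemma near_1 (hodd : ¬ π ∣ 2) (d : Kˣ) {P : E (d : K)} (hP : P ≠ 0) (hx : cg (nx P) 1) :
    P - (1 : GaussianInt) • T d.ne_zero ∈ nb π (d : K) 0 := by
  rw [one_smul]
  exact near_T h hodd d.ne_zero hP hx.2.2

lemma near_gi (hodd : ¬ π ∣ 2) (d : Kˣ) {P : E (d : K)} (hP : P ≠ 0) (hx : cg (nx P) (-1)) :
    P - gi • T d.ne_zero ∈ nb π (d : K) 0 := by
  apply near_giT h hodd d hP
  have := hx.2.2
  rwa [sub_neg_eq_add] at this

lemma near_lam (d : Kˣ) {P : E (d : K)} (hP : P ≠ 0) (hx : cg (nx P) 0) :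
    P - lam • T d.ne_zero ∈ nb π (d : K) 0 := by
  rw [lam_smul_T]
  apply near_T₀ h d.ne_zero hP
  have := hx.2.2
  rwa [sub_zero] at this

lemma ne_of_norm {x : K} (hx : ‖x‖ = 1) : x ≠ 0 := by
  have _ := h
  rw [← norm_pos_iff, hx]; norm_num

/-- both coordinates are integral -/
lemma fin_fin {X Y x0 y0 : K} (hX : cg X x0) (hY : cg Y y0) (hS : ‖sS x0 y0‖ = 1)
    (hD : ‖sD x0 y0‖ = 1) (hQ : ‖sQ x0 y0‖ = 1) :
    sD X Y ≠ 0 ∧ sS X Y ≠ 0 ∧ sQ X Y ≠ 0 ∧ cg (sx X Y) (sx x0 y0) ∧ cg (sy X Y) (sy x0 y0) := by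
  have c1 : cg (1 : K) 1 := cg_one
  have c2 : cg (2 : K) 2 := cg_ofNat h 2
  have c3 : cg (3 : K) 3 := cg_ofNat h 3
  have cS : cg (sS X Y) (sS x0 y0) := by
    unfold sS
    exact cg_add h (cg_add h hX hY) c1
  have cD : cg (sD X Y) (sD x0 y0) := by
    unfold sD
    exact cg_sub h (cg_sub h (cg_sub h (cg_mul h (cg_mul h c3 hX) hY) hX) hY) c1
  have cQ : cg (sQ X Y) (sQ x0 y0) := by
    unfold sQ
    exact cg_mul h (cg_sub h (cg_sub h (cg_mul h c2 hX) hY) c1)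
      (cg_add h (cg_sub h hX (cg_mul h c2 hY)) c1)
  have cr : cg (rho X Y) (rho x0 y0) := by
    unfold rho
    exact cg_div h (cg_mul h (cg_neg c2) cS) cD hD
  refine ⟨ne_of_norm h (cg_norm h cD hD), ne_of_norm h (cg_norm h cS hS),
    ne_of_norm h (cg_norm h cQ hQ), ?_, ?_⟩
  · unfold sx
    exact cg_add h c1 (cg_mul h cr (cg_sub h hX c1))
  · unfold sy
    exact cg_add h c1 (cg_mul h cr (cg_sub h hY c1))

/-- one coordinate is large -/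
lemma inf_fin (hodd : ¬ π ∣ 2) {X Y y0 : K} (hX : 1 < ‖X‖) (hY : cg Y y0)
    (hy : ‖3 * y0 - 1‖ = 1) :
    sD X Y ≠ 0 ∧ sS X Y ≠ 0 ∧ sQ X Y ≠ 0 ∧ 1 < ‖sx X Y‖ ∧
      cg (sy X Y) (1 + -2 / (3 * y0 - 1) * (y0 - 1)) := by
  have hX0 : X ≠ 0 := by
    intro h0; rw [h0, norm_zero] at hX; linarith
  have h2 : ‖(2 : K)‖ = 1 := h.norm_two hodd
  have c1 : cg (1 : K) 1 := cg_one
  have c2 : cg (2 : K) 2 := cg_ofNat h 2
  have c3 : cg (3 : K) 3 := cg_ofNat h 3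
  have cw : cg X⁻¹ 0 := cg_w h hX
  have ew : X * X⁻¹ = 1 := mul_inv_cancel₀ hX0
  -- the four factors
  have c4 : cg (1 + X⁻¹ * (Y + 1)) 1 := by
    have := cg_add h c1 (cg_mul h cw (cg_add h hY c1))
    simpa using this
  have c5 : cg ((3 * Y - 1) - X⁻¹ * (Y + 1)) (3 * y0 - 1) := by
    have := cg_sub h (cg_sub h (cg_mul h c3 hY) c1) (cg_mul h cw (cg_add h hY c1))
    simpa using this
  have c6 : cg (2 - X⁻¹ * (Y + 1)) 2 := by
    have := cg_sub h c2 (cg_mul h cw (cg_add h hY c1))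
    simpa using this
  have c7 : cg (1 - X⁻¹ * (2 * Y - 1)) 1 := by
    have := cg_sub h c1 (cg_mul h cw (cg_sub h (cg_mul h c2 hY) c1))
    simpa using this
  have n4 := ne_of_norm h (cg_norm h c4 norm_one)
  have n5 := ne_of_norm h (cg_norm h c5 hy)
  have n6 := ne_of_norm h (cg_norm h c6 h2)
  have n7 := ne_of_norm h (cg_norm h c7 norm_one)
  have eS : sS X Y = X * (1 + X⁻¹ * (Y + 1)) := by
    unfold sS
    linear_combination (-(Y + 1)) * ew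
  have eD : sD X Y = X * ((3 * Y - 1) - X⁻¹ * (Y + 1)) := by
    unfold sD
    linear_combination (Y + 1) * ew
  have eQ : sQ X Y = (X * (2 - X⁻¹ * (Y + 1))) * (X * (1 - X⁻¹ * (2 * Y - 1))) := by
    have e1 : X * (2 - X⁻¹ * (Y + 1)) = 2 * X - Y - 1 := by
      linear_combination (-(Y + 1)) * ew
    have e2 : X * (1 - X⁻¹ * (2 * Y - 1)) = X - 2 * Y + 1 := by
      linear_combination (-(2 * Y - 1)) * ew
    rw [e1, e2]
    rfl
  have er : rho X Y = -2 * (1 + X⁻¹ * (Y + 1)) / ((3 * Y - 1) - X⁻¹ * (Y + 1)) := by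
    unfold rho
    rw [eS, eD]
    have : -2 * (X * (1 + X⁻¹ * (Y + 1))) = X * (-2 * (1 + X⁻¹ * (Y + 1))) := by ring
    rw [this, mul_div_mul_left _ _ hX0]
  have cr : cg (rho X Y) (-2 / (3 * y0 - 1)) := by
    rw [er]
    have := cg_div h (cg_mul h (cg_neg c2) c4) c5 hy
    simpa using this
  have nr : ‖rho X Y‖ = 1 := by
    apply cg_norm h cr
    rw [norm_div, norm_neg, h2, hy, div_one]
  refine ⟨?_, ?_, ?_, ?_, ?_⟩
  · rw [eD]; exact mul_ne_zero hX0 n5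
  · rw [eS]; exact mul_ne_zero hX0 n4
  · rw [eQ]; exact mul_ne_zero (mul_ne_zero hX0 n6) (mul_ne_zero hX0 n7)
  · unfold sx
    have h3 : ‖X - 1‖ = ‖X‖ := by
      rw [sub_eq_add_neg]
      exact h.norm_sum_eq (by rwa [norm_neg, norm_one])
    have h4 : ‖rho X Y * (X - 1)‖ = ‖X‖ := by rw [norm_mul, nr, one_mul, h3]
    rw [add_comm, h.norm_sum_eq (by rwa [h4, norm_one]), h4]
    exact hX
  · unfold sy
    exact cg_add h c1 (cg_mul h cr (cg_sub h hY c1))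

end near

end SIGC

open SIGC

section SIG

variable {K : Type} [NormedField K] [Algebra GaussianInt K] [NeZero (2 : K)] [DecidableEq K]
  {π : GaussianInt}

theorem LocHyp.sig_inf_T (h : LocHyp K π) (hodd : ¬ π ∣ 2) (d : Kˣ) (η : E (d : K))
    (hη : η ∈ nb π (d : K) 0) (hη0 : η ≠ 0) :
    ∃ t' ∈ (FLD K π).NNε 0 1, (FLD K π).S t' ⟨d, η, T d.ne_zero + η⟩ := by
  have h2 : ‖(2 : K)‖ = 1 := h.norm_two hodd
  obtain ⟨a1, -, -, -, a5⟩ := pt_inf h d hη hη0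
  obtain ⟨b1, b2, b3⟩ := pt_T h d hη hη0
  obtain ⟨c1, c2, c3, c4, c5⟩ := inf_fin h hodd a1 b2 (by norm_num; exact h2)
  obtain ⟨d', P', Q', e1, e2, e3, e4, e5⟩ := exists_img a5 b3 c1 c2 c3
  rw [← e3] at c4
  rw [← e4] at c5
  refine ⟨⟨d', P', Q'⟩, mem_NNε (near_0 h d' c4) (near_1 h hodd d' e2 ?_), e5⟩
  simpa using c5

theorem LocHyp.sig_inf_r1 (h : LocHyp K π) (hodd : ¬ π ∣ 2) (d : Kˣ) (η : E (d : K))
    (hη : η ∈ nb π (d : K) 0) (hη0 : η ≠ 0) :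
    ∃ t' ∈ (FLD K π).NNε 0 gi, (FLD K π).S t' ⟨d, η, T₀ d.ne_zero + η⟩ := by
  have h2 : ‖(2 : K)‖ = 1 := h.norm_two hodd
  obtain ⟨a1, -, -, -, a5⟩ := pt_inf h d hη hη0
  obtain ⟨b1, b2, b3⟩ := pt_T₀ h d hη hη0
  obtain ⟨c1, c2, c3, c4, c5⟩ := inf_fin h hodd a1 b2
    (by rw [mul_zero, zero_sub, norm_neg, norm_one])
  obtain ⟨d', P', Q', e1, e2, e3, e4, e5⟩ := exists_img a5 b3 c1 c2 c3
  rw [← e3] at c4
  rw [← e4] at c5
  refine ⟨⟨d', P', Q'⟩, mem_NNε (near_0 h d' c4) (near_gi h hodd d' e2 ?_), e5⟩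
  have : (1 : K) + -2 / (3 * 0 - 1) * (0 - 1) = -1 := by norm_num
  rwa [this] at c5

theorem LocHyp.sig_inf_r2 (h : LocHyp K π) (hodd : ¬ π ∣ 2) (d : Kˣ) (η : E (d : K))
    (hη : η ∈ nb π (d : K) 0) (hη0 : η ≠ 0) :
    ∃ t' ∈ (FLD K π).NNε 0 lam, (FLD K π).S t' ⟨d, η, gi • T d.ne_zero + η⟩ := by
  have h2 : ‖(2 : K)‖ = 1 := h.norm_two hodd
  have h20 : (2 : K) ≠ 0 := two_ne_zero
  obtain ⟨a1, -, -, -, a5⟩ := pt_inf h d hη hη0
  obtain ⟨b1, b2, b3⟩ := pt_giT h d hη hη0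
  obtain ⟨c1, c2, c3, c4, c5⟩ := inf_fin h hodd a1 b2
    (by
      have : (3 : K) * -1 - 1 = -(2 * 2) := by norm_num
      rw [this, norm_neg, norm_mul, h2, mul_one])
  obtain ⟨d', P', Q', e1, e2, e3, e4, e5⟩ := exists_img a5 b3 c1 c2 c3
  rw [← e3] at c4
  rw [← e4] at c5
  refine ⟨⟨d', P', Q'⟩, mem_NNε (near_0 h d' c4) (near_lam h d' e2 ?_), e5⟩
  have : (1 : K) + -2 / (3 * -1 - 1) * (-1 - 1) = 0 := by
    have e : (3 : K) * -1 - 1 = -(2 * 2) := by norm_num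
    rw [e]
    field_simp
    ring
  rwa [this] at c5

theorem LocHyp.sig_T_r1 (h : LocHyp K π) (hodd : ¬ π ∣ 2) (d : Kˣ) (η : E (d : K))
    (hη : η ∈ nb π (d : K) 0) (hη0 : η ≠ 0) :
    ∃ t' ∈ (FLD K π).NNε 1 gi,
      (FLD K π).S t' ⟨d, T d.ne_zero + η, T₀ d.ne_zero + η⟩ := by
  have h2 : ‖(2 : K)‖ = 1 := h.norm_two hodd
  have h20 : (2 : K) ≠ 0 := two_ne_zero
  obtain ⟨a1, a2, a3⟩ := pt_T h d hη hη0
  obtain ⟨b1, b2, b3⟩ := pt_T₀ h d hη hη0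
  have vS : sS (1 : K) 0 = 2 := by unfold sS; norm_num
  have vD : sD (1 : K) 0 = -2 := by unfold sD; norm_num
  have vQ : sQ (1 : K) 0 = 2 := by unfold sQ; norm_num
  obtain ⟨c1, c2, c3, c4, c5⟩ := fin_fin h a2 b2 (by rw [vS, h2]) (by rw [vD, norm_neg, h2])
    (by rw [vQ, h2])
  have vr : rho (1 : K) 0 = 2 := by
    unfold rho; rw [vS, vD]; field_simp
  have vx : sx (1 : K) 0 = 1 := by unfold sx; rw [vr]; norm_num
  have vy : sy (1 : K) 0 = -1 := by unfold sy; rw [vr]; norm_num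
  obtain ⟨d', P', Q', e1, e2, e3, e4, e5⟩ := exists_img a3 b3 c1 c2 c3
  rw [← e3, vx] at c4
  rw [← e4, vy] at c5
  exact ⟨⟨d', P', Q'⟩, mem_NNε (near_1 h hodd d' e1 c4) (near_gi h hodd d' e2 c5), e5⟩

theorem LocHyp.sig_T_r2 (h : LocHyp K π) (hodd : ¬ π ∣ 2) (d : Kˣ) (η : E (d : K))
    (hη : η ∈ nb π (d : K) 0) (hη0 : η ≠ 0) :
    ∃ t' ∈ (FLD K π).NNε 1 lam,
      (FLD K π).S t' ⟨d, T d.ne_zero + η, gi • T d.ne_zero + η⟩ := by
  have h2 : ‖(2 : K)‖ = 1 := h.norm_two hodd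
  have h20 : (2 : K) ≠ 0 := two_ne_zero
  obtain ⟨a1, a2, a3⟩ := pt_T h d hη hη0
  obtain ⟨b1, b2, b3⟩ := pt_giT h d hη hη0
  have vS : sS (1 : K) (-1) = 1 := by unfold sS; norm_num
  have vD : sD (1 : K) (-1) = -(2 * 2) := by unfold sD; norm_num
  have vQ : sQ (1 : K) (-1) = 2 * 2 * 2 := by unfold sQ; norm_num
  obtain ⟨c1, c2, c3, c4, c5⟩ := fin_fin h a2 b2 (by rw [vS, norm_one])
    (by rw [vD, norm_neg, norm_mul, h2, mul_one])
    (by rw [vQ, norm_mul, norm_mul, h2, mul_one, mul_one])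
  have vr : rho (1 : K) (-1) * 2 = 1 := by
    unfold rho; rw [vS, vD]; field_simp
  have vx : sx (1 : K) (-1) = 1 := by unfold sx; norm_num
  have vy : sy (1 : K) (-1) = 0 := by unfold sy; linear_combination (-1 : K) * vr
  obtain ⟨d', P', Q', e1, e2, e3, e4, e5⟩ := exists_img a3 b3 c1 c2 c3
  rw [← e3, vx] at c4
  rw [← e4, vy] at c5
  exact ⟨⟨d', P', Q'⟩, mem_NNε (near_1 h hodd d' e1 c4) (near_lam h d' e2 c5), e5⟩

theorem LocHyp.sig_r1_r1 (h : LocHyp K π) (hodd : ¬ π ∣ 2) (d : Kˣ) (η : E (d : K))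
    (hη : η ∈ nb π (d : K) 0) (hη0 : η ≠ 0) :
    ∃ t' ∈ (FLD K π).NNε gi gi,
      (FLD K π).S t' ⟨d, T₀ d.ne_zero + η, T₀ d.ne_zero + η⟩ := by
  obtain ⟨b1, b2, b3⟩ := pt_T₀ h d hη hη0
  have vS : sS (0 : K) 0 = 1 := by unfold sS; norm_num
  have vD : sD (0 : K) 0 = -1 := by unfold sD; norm_num
  have vQ : sQ (0 : K) 0 = -1 := by unfold sQ; norm_num
  obtain ⟨c1, c2, c3, c4, c5⟩ := fin_fin h b2 b2 (by rw [vS, norm_one])
    (by rw [vD, norm_neg, norm_one]) (by rw [vQ, norm_neg, norm_one])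
  have vr : rho (0 : K) 0 = 2 := by
    unfold rho; rw [vS, vD]; norm_num
  have vx : sx (0 : K) 0 = -1 := by unfold sx; rw [vr]; norm_num
  have vy : sy (0 : K) 0 = -1 := by unfold sy; rw [vr]; norm_num
  obtain ⟨d', P', Q', e1, e2, e3, e4, e5⟩ := exists_img b3 b3 c1 c2 c3
  rw [← e3, vx] at c4
  rw [← e4, vy] at c5
  exact ⟨⟨d', P', Q'⟩, mem_NNε (near_gi h hodd d' e1 c4) (near_gi h hodd d' e2 c5), e5⟩

theorem LocHyp.sig_r2_r2 (h : LocHyp K π) (hodd : ¬ π ∣ 2) (d : Kˣ) (η : E (d : K))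
    (hη : η ∈ nb π (d : K) 0) (hη0 : η ≠ 0) :
    ∃ t' ∈ (FLD K π).NNε lam lam,
      (FLD K π).S t' ⟨d, gi • T d.ne_zero + η, gi • T d.ne_zero + η⟩ := by
  have h2 : ‖(2 : K)‖ = 1 := h.norm_two hodd
  have h20 : (2 : K) ≠ 0 := two_ne_zero
  obtain ⟨b1, b2, b3⟩ := pt_giT h d hη hη0
  have vS : sS (-1 : K) (-1) = -1 := by unfold sS; norm_num
  have vD : sD (-1 : K) (-1) = 2 * 2 := by unfold sD; norm_num
  have vQ : sQ (-1 : K) (-1) = -(2 * 2) := by unfold sQ; norm_num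
  obtain ⟨c1, c2, c3, c4, c5⟩ := fin_fin h b2 b2 (by rw [vS, norm_neg, norm_one])
    (by rw [vD, norm_mul, h2, mul_one]) (by rw [vQ, norm_neg, norm_mul, h2, mul_one])
  have vr : rho (-1 : K) (-1) * 2 = 1 := by
    unfold rho; rw [vS, vD]; field_simp
  have vx : sx (-1 : K) (-1) = 0 := by unfold sx; linear_combination (-1 : K) * vr
  have vy : sy (-1 : K) (-1) = 0 := by unfold sy; linear_combination (-1 : K) * vr
  obtain ⟨d', P', Q', e1, e2, e3, e4, e5⟩ := exists_img b3 b3 c1 c2 c3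
  rw [← e3, vx] at c4
  rw [← e4, vy] at c5
  exact ⟨⟨d', P', Q'⟩, mem_NNε (near_lam h d' e1 c4) (near_lam h d' e2 c5), e5⟩

end SIG

end GWA
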